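import Pool.Agent.Helper10.Sch.Basic

/-!
Averaging over independent translates, the limit `L → ∞`, and the sources of dense sets without
differences in `S`.
-/

set_option autoImplicit false

namespace Pool.Agent.Helper10.Sch

open Finset Filter
open scoped Pointwise Topology

/-- For one `M` and every `L` there is a subset of `[-M, L + M)` with no difference in `S` and with at
least `L / c` elements. -/
def Dense (S : Finset ℤ) (c : ℝ) : Prop :=
  ∃ M : ℕ, ∀ L : ℕ, ∃ B : Finset ℤ, (∀ b ∈ B, -(M : ℤ) ≤ b ∧ b < L + M) ∧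
    (∀ b ∈ B, ∀ e ∈ B, b - e ∉ S) ∧ (L : ℝ) ≤ c * B.card

theorem Dense.pos {S : Finset ℤ} {c : ℝ} (h : Dense S c) : 0 < c := by
  obtain ⟨M, h⟩ := h
  obtain ⟨B, -, -, h3⟩ := h 1
  by_contra hc
  push Not at hc
  have : c * (B.card : ℝ) ≤ 0 := mul_nonpos_of_nonpos_of_nonneg hc (Nat.cast_nonneg _)
  push_cast at h3
  linarith

/-- The count of pairs. -/
theorem count {n m : ℕ} (N M L : ℕ) (hNM : N ≤ M) (S : Fin n → Finset ℤ) (B : Fin n → Finset ℤ)
    (hB1 : ∀ i, ∀ b ∈ B i, -(M : ℤ) ≤ b ∧ b < L + M)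
    (hB2 : ∀ i, ∀ b ∈ B i, ∀ e ∈ B i, b - e ∉ S i)
    (T : Fin m → Set ℤ) (hT : ∀ j, SumFree (T j))
    (hcov : ∀ k : ℤ, 1 ≤ k → k ≤ N → (∃ i, k ∈ S i) ∨ ∃ j, k ∈ T j) :
    (N + 1) * ∏ i, (B i).card ≤ (L + 3 * M) ^ n * sm m := by
  classical
  set Y : Finset ℤ := Finset.Icc 0 (N : ℤ) with hY
  set W : Finset ℤ := Finset.Ico (-(2 * M : ℤ)) (L + M) with hW
  set P : Finset (Fin n → ℤ) := Fintype.piFinset fun _ => W with hP
  have hWc : W.card = L + 3 * M := by
    rw [hW, Int.card_Ico]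
    omega
  have hPc : P.card = (L + 3 * M) ^ n := by
    rw [hP, Fintype.card_piFinset]
    simp [hWc]
  have hYc : Y.card = N + 1 := by
    rw [hY, Int.card_Icc]
    omega
  have h1 : ∀ y ∈ Y, ∏ i, (B i).card ≤ (P.filter fun t => ∀ i, y + t i ∈ B i).card := by
    intro y hy
    rw [hY, Finset.mem_Icc] at hy
    have : (Fintype.piFinset fun i => (B i).image fun b => b - y) ⊆
        P.filter fun t => ∀ i, y + t i ∈ B i := by
      intro t ht
      rw [Fintype.mem_piFinset] at ht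
      rw [Finset.mem_filter, hP, Fintype.mem_piFinset]
      constructor
      · intro i
        obtain ⟨b, hb, hb2⟩ := Finset.mem_image.1 (ht i)
        have := hB1 i b hb
        rw [hW, Finset.mem_Ico]
        omega
      · intro i
        obtain ⟨b, hb, hb2⟩ := Finset.mem_image.1 (ht i)
        rw [← hb2]
        simpa using hb
    refine le_trans (le_of_eq ?_) (Finset.card_le_card this)
    rw [Fintype.card_piFinset]
    refine Finset.prod_congr rfl fun i _ => ?_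
    rw [Finset.card_image_of_injective]
    intro a b hab
    simpa using hab
  have h2 : ∀ t ∈ P, (Y.filter fun y => ∀ i, y + t i ∈ B i).card ≤ sm m := by
    intro t _
    refine schur T hT m Finset.univ (by simp) _ ?_
    intro y hy z hz hzy
    obtain ⟨hy1, hy2⟩ := Finset.mem_filter.1 hy
    obtain ⟨hz1, hz2⟩ := Finset.mem_filter.1 hz
    rw [hY, Finset.mem_Icc] at hy1 hz1
    rcases hcov (y - z) (by omega) (by omega) with ⟨i, hi⟩ | ⟨j, hj⟩
    · exfalso
      refine hB2 i _ (hy2 i) _ (hz2 i) ?_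
      rw [add_sub_add_right_eq_sub]
      exact hi
    · exact ⟨j, Finset.mem_univ _, hj⟩
  calc (N + 1) * ∏ i, (B i).card = ∑ _y ∈ Y, ∏ i, (B i).card := by
        rw [Finset.sum_const, hYc, smul_eq_mul]
    _ ≤ ∑ y ∈ Y, (P.filter fun t => ∀ i, y + t i ∈ B i).card := Finset.sum_le_sum h1
    _ = ∑ t ∈ P, (Y.filter fun y => ∀ i, y + t i ∈ B i).card := by
        simp only [Finset.card_filter]
        exact Finset.sum_comm
    _ ≤ ∑ _t ∈ P, sm m := Finset.sum_le_sum h2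
    _ = (L + 3 * M) ^ n * sm m := by rw [Finset.sum_const, hPc, smul_eq_mul]

theorem limit {a b : ℝ} {C n : ℕ} (h : ∀ L : ℕ, a * (L : ℝ) ^ n ≤ b * ((L : ℝ) + C) ^ n) : a ≤ b := by
  have h1 : Tendsto (fun L : ℕ => b * (1 + (C : ℝ) / (L : ℝ)) ^ n) atTop (𝓝 (b * (1 + 0) ^ n)) := by
    refine Tendsto.const_mul _ (Tendsto.pow (Tendsto.const_add _ ?_) _)
    exact tendsto_const_div_atTop_nhds_zero_nat _
  rw [add_zero, one_pow, mul_one] at h1
  refine ge_of_tendsto h1 ?_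
  filter_upwards [eventually_gt_atTop 0] with L hL
  have hL' : (0 : ℝ) < (L : ℝ) ^ n := pow_pos (by exact_mod_cast hL) _
  have hL0 : (L : ℝ) ≠ 0 := by exact_mod_cast hL.ne'
  have e : (1 + (C : ℝ) / (L : ℝ)) ^ n = ((L : ℝ) + C) ^ n / (L : ℝ) ^ n := by
    rw [← div_pow]
    congr 1
    field_simp
  rw [e, ← mul_div_assoc, le_div_iff₀ hL']
  exact h L

theorem avg {n m : ℕ} (N : ℕ) (S : Fin n → Finset ℤ) (c : Fin n → ℝ)
    (hc : ∀ i, Dense (S i) (c i)) (T : Fin m → Set ℤ) (hT : ∀ j, SumFree (T j))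
    (hcov : ∀ k : ℤ, 1 ≤ k → k ≤ N → (∃ i, k ∈ S i) ∨ ∃ j, k ∈ T j) :
    (N + 1 : ℝ) ≤ sm m * ∏ i, c i := by
  classical
  have hpos : ∀ i, 0 < c i := fun i => (hc i).pos
  choose M0 hM0 using hc
  set M : ℕ := N + ∑ i, M0 i with hM
  have hMi : ∀ i, M0 i ≤ M := fun i =>
    (Finset.single_le_sum (f := M0) (fun _ _ => Nat.zero_le _) (Finset.mem_univ i)).trans
      (Nat.le_add_left _ _)
  refine limit (C := 3 * M) (n := n) fun L => ?_
  choose B hB1 hB2 hB3 using fun i => hM0 i L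
  have h := count N M L (by omega) S B (fun i b hb => by
    have h1 := hB1 i b hb
    have h2 : (M0 i : ℤ) ≤ M := by exact_mod_cast hMi i
    omega) hB2 T hT hcov
  have h' : ((N : ℝ) + 1) * ∏ i, ((B i).card : ℝ) ≤ ((L : ℝ) + 3 * M) ^ n * sm m := by
    exact_mod_cast h
  have h3 : (L : ℝ) ^ n ≤ (∏ i, c i) * ∏ i, ((B i).card : ℝ) := by
    rw [← Finset.prod_mul_distrib]
    calc (L : ℝ) ^ n = ∏ _i : Fin n, (L : ℝ) := by simp
      _ ≤ ∏ i, (c i * ((B i).card : ℝ)) :=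
          Finset.prod_le_prod (fun _ _ => Nat.cast_nonneg _) fun i _ => hB3 i
  have hp : 0 ≤ ∏ i, c i := Finset.prod_nonneg fun i _ => (hpos i).le
  calc ((N : ℝ) + 1) * (L : ℝ) ^ n ≤ ((N : ℝ) + 1) * ((∏ i, c i) * ∏ i, ((B i).card : ℝ)) :=
        mul_le_mul_of_nonneg_left h3 (by positivity)
    _ = (∏ i, c i) * (((N : ℝ) + 1) * ∏ i, ((B i).card : ℝ)) := by ring
    _ ≤ (∏ i, c i) * (((L : ℝ) + 3 * M) ^ n * sm m) := mul_le_mul_of_nonneg_left h' hp
    _ = (sm m * ∏ i, c i) * ((L : ℝ) + ((3 * M : ℕ) : ℝ)) ^ n := by push_cast; ring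

/-- A finite set `X` with no difference in `S` and few sums `s + x - x'`. -/
theorem dense_of_set {S X : Finset ℤ} (hS : S.Nonempty) (hX : X.Nonempty)
    (hf : ∀ x ∈ X, ∀ y ∈ X, x - y ∉ S) {c : ℝ}
    (hc : 3 * ((S + X - X).card : ℝ) + 1 ≤ 2 * c * X.card) : Dense S c := by
  obtain ⟨M, hM⟩ : ∃ M : ℕ, ∀ x ∈ X, -(M : ℤ) ≤ x ∧ x ≤ M := by
    refine ⟨∑ x ∈ X, x.natAbs, fun x hx => ?_⟩
    have : x.natAbs ≤ ∑ x ∈ X, x.natAbs :=
      Finset.single_le_sum (f := fun x : ℤ => x.natAbs) (fun _ _ => Nat.zero_le _) hx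
    omega
  refine ⟨M, fun L => ?_⟩
  obtain ⟨B, h1, h2, h3⟩ := pack hS hX hf hM L
  refine ⟨B, h1, h2, ?_⟩
  have hX' : (0 : ℝ) < X.card := by exact_mod_cast Finset.card_pos.2 hX
  have h3' : 2 * (X.card : ℝ) * L ≤ (3 * ((S + X - X).card : ℝ) + 1) * B.card := by
    have : D S X = S + X - X := rfl
    rw [this] at h3
    exact_mod_cast h3
  have h4 : (3 * ((S + X - X).card : ℝ) + 1) * B.card ≤ 2 * c * X.card * B.card :=
    mul_le_mul_of_nonneg_right hc (Nat.cast_nonneg _)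
  have h5 : (2 * (X.card : ℝ)) * L ≤ (2 * (X.card : ℝ)) * (c * B.card) := by
    calc (2 * (X.card : ℝ)) * L ≤ 2 * c * X.card * B.card := h3'.trans h4
      _ = _ := by ring
  exact le_of_mul_le_mul_left h5 (by positivity)

/-- Pluennecke. -/
theorem card_le_of_doubling {X : Finset ℤ} (hX : X.Nonempty) :
    ((X + X - X).card : ℝ) * (X.card : ℝ) ^ 2 ≤ ((X + X).card : ℝ) ^ 3 := by
  have h := Finset.pluennecke_ruzsa_inequality_nsmul_sub_nsmul_add hX X 2 1
  have e : (2 : ℕ) • X - (1 : ℕ) • X = X + X - X := by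
    rw [two_nsmul, one_nsmul]
  rw [e] at h
  have hX' : (0 : ℝ) < X.card := by exact_mod_cast Finset.card_pos.2 hX
  have h' : ((X + X - X).card : ℝ) ≤ (((X + X).card : ℝ) / X.card) ^ 3 * X.card := by
    have h2 := (NNRat.cast_le (K := ℝ)).2 h
    push_cast at h2
    exact h2
  calc ((X + X - X).card : ℝ) * (X.card : ℝ) ^ 2
      ≤ ((((X + X).card : ℝ) / X.card) ^ 3 * X.card) * (X.card : ℝ) ^ 2 :=
        mul_le_mul_of_nonneg_right h' (by positivity)
    _ = ((X + X).card : ℝ) ^ 3 := by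
        field_simp

theorem dense_of_doubling {S X : Finset ℤ} (hS : S.Nonempty) (hSX : S ⊆ X)
    (hf : SumFree (X : Set ℤ)) {c : ℝ}
    (hc : 3 * ((X + X).card : ℝ) ^ 3 + (X.card : ℝ) ^ 3 ≤ 2 * c * (X.card : ℝ) ^ 3) : Dense S c := by
  have hX : X.Nonempty := hS.mono hSX
  have hX' : (1 : ℝ) ≤ X.card := by exact_mod_cast Finset.card_pos.2 hX
  refine dense_of_set hS hX ?_ ?_
  · intro x hx y hy hxy
    refine hf _ (Finset.mem_coe.2 (hSX hxy)) _ (Finset.mem_coe.2 hy) ?_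
    rw [sub_add_cancel]
    exact hx
  · have h1 : ((S + X - X).card : ℝ) ≤ (X + X - X).card := by
      exact_mod_cast Finset.card_le_card (Finset.sub_subset_sub (Finset.add_subset_add hSX
        (Finset.Subset.refl X)) (Finset.Subset.refl X))
    have h2 := card_le_of_doubling hX
    have h3 : (3 * ((S + X - X).card : ℝ) + 1) * (X.card : ℝ) ^ 2 ≤
        (2 * c * X.card) * (X.card : ℝ) ^ 2 := by
      calc (3 * ((S + X - X).card : ℝ) + 1) * (X.card : ℝ) ^ 2
          ≤ (3 * ((X + X - X).card : ℝ) + 1) * (X.card : ℝ) ^ 2 :=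
            mul_le_mul_of_nonneg_right (by linarith) (by positivity)
        _ = 3 * (((X + X - X).card : ℝ) * (X.card : ℝ) ^ 2) + (X.card : ℝ) ^ 2 * 1 := by ring
        _ ≤ 3 * ((X + X).card : ℝ) ^ 3 + (X.card : ℝ) ^ 2 * X.card := by
            refine add_le_add (mul_le_mul_of_nonneg_left h2 (by norm_num))
              (mul_le_mul_of_nonneg_left hX' (by positivity))
        _ = 3 * ((X + X).card : ℝ) ^ 3 + (X.card : ℝ) ^ 3 := by ring
        _ ≤ 2 * c * (X.card : ℝ) ^ 3 := hc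
        _ = (2 * c * X.card) * (X.card : ℝ) ^ 2 := by ring
    exact le_of_mul_le_mul_right h3 (by positivity)

end Pool.Agent.Helper10.Sch
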