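import Mathlib

/-!
Sum-free coverings of `{1, ..., N}` by sets of small doubling: Schur's induction, packing of translates
of a sum-free set, averaging over independent translates.
-/

set_option autoImplicit false

namespace Pool.Agent.Helper10.Sch

open Finset
open scoped Pointwise

/-- sum-free sets of integers (`x = y` is allowed) -/
def SumFree (S : Set ℤ) : Prop := ∀ x ∈ S, ∀ y ∈ S, x + y ∉ S

/-- `∑_{k ≤ m} m! / (m - k)!` -/
def sm (m : ℕ) : ℕ := ∑ k ∈ range (m + 1), m.descFactorial k

theorem sm_zero : sm 0 = 1 := by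
  simp [sm]

theorem sm_succ (m : ℕ) : sm (m + 1) = (m + 1) * sm m + 1 := by
  unfold sm
  rw [Finset.sum_range_succ', Finset.mul_sum]
  congr 1
  refine Finset.sum_congr rfl fun k _ => ?_
  rw [Nat.succ_descFactorial_succ]

/-- Schur's induction. -/
theorem schur {ι : Type*} [DecidableEq ι] (T : ι → Set ℤ) (hT : ∀ j, SumFree (T j)) :
    ∀ (m : ℕ) (J : Finset ι), J.card = m → ∀ Y : Finset ℤ,
      (∀ y ∈ Y, ∀ z ∈ Y, z < y → ∃ j ∈ J, y - z ∈ T j) → Y.card ≤ sm m := by
  classical
  intro m
  induction m with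
  | zero =>
    intro J hJ Y hY
    rw [sm_zero]
    by_contra h
    push Not at h
    obtain ⟨a, ha, b, hb, hab⟩ := Finset.one_lt_card.1 h
    rw [Finset.card_eq_zero] at hJ
    subst hJ
    rcases lt_or_gt_of_ne hab with h1 | h1
    · obtain ⟨j, hj, -⟩ := hY b hb a ha h1
      simp at hj
    · obtain ⟨j, hj, -⟩ := hY a ha b hb h1
      simp at hj
  | succ m ih =>
    intro J hJ Y hY
    rw [sm_succ]
    rcases Y.eq_empty_or_nonempty with h0 | h0
    · subst h0
      simp
    set y0 := Y.min' h0 with hy0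
    have hy0m : y0 ∈ Y := Y.min'_mem h0
    have hcov : Y.erase y0 ⊆ J.biUnion fun j => (Y.erase y0).filter fun y => y - y0 ∈ T j := by
      intro y hy
      have hy1 := Finset.mem_erase.1 hy
      have hlt : y0 < y := lt_of_le_of_ne (Y.min'_le y hy1.2) (Ne.symm hy1.1)
      obtain ⟨j, hj, hj2⟩ := hY y hy1.2 y0 hy0m hlt
      exact Finset.mem_biUnion.2 ⟨j, hj, Finset.mem_filter.2 ⟨hy, hj2⟩⟩
    have hj : ∀ j ∈ J, ((Y.erase y0).filter fun y => y - y0 ∈ T j).card ≤ sm m := by
      intro j hj
      refine ih (J.erase j) (by rw [Finset.card_erase_of_mem hj, hJ]; rfl) _ ?_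
      intro y hy z hz hzy
      obtain ⟨hy1, hy2⟩ := Finset.mem_filter.1 hy
      obtain ⟨hz1, hz2⟩ := Finset.mem_filter.1 hz
      obtain ⟨j', hj', h'⟩ := hY y (Finset.mem_of_mem_erase hy1) z (Finset.mem_of_mem_erase hz1) hzy
      refine ⟨j', Finset.mem_erase.2 ⟨?_, hj'⟩, h'⟩
      rintro rfl
      refine hT j' _ h' _ hz2 ?_
      rw [sub_add_sub_cancel]
      exact hy2
    have h1 : (Y.erase y0).card ≤ (m + 1) * sm m := by
      calc (Y.erase y0).card ≤ _ := Finset.card_le_card hcov
        _ ≤ ∑ j ∈ J, ((Y.erase y0).filter fun y => y - y0 ∈ T j).card := Finset.card_biUnion_le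
        _ ≤ ∑ _j ∈ J, sm m := Finset.sum_le_sum hj
        _ = (m + 1) * sm m := by rw [Finset.sum_const, hJ, smul_eq_mul]
    have h2 := Finset.card_erase_add_one hy0m
    omega

/-- Greedy packing from the left. -/
theorem greedy (F : Finset ℤ) (L : ℕ) :
    ∃ T : Finset ℤ, (∀ t ∈ T, 0 ≤ t ∧ t < L) ∧ (∀ t ∈ T, ∀ u ∈ T, u < t → t - u ∉ F) ∧
      L ≤ T.card * (F.card + 1) := by
  classical
  have key : ∀ L : ℕ, ∃ T : Finset ℤ, (∀ t ∈ T, 0 ≤ t ∧ t < L) ∧
      (∀ t ∈ T, ∀ u ∈ T, u < t → t - u ∉ F) ∧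
      ∀ x : ℤ, 0 ≤ x → x < L → ∃ t ∈ T, x - t ∈ insert 0 F := by
    intro L
    induction L with
    | zero => exact ⟨∅, by simp, by simp, fun x h1 h2 => by
        exfalso
        have : x < 0 := by exact_mod_cast h2
        omega⟩
    | succ L ih =>
      obtain ⟨T, h1, h2, h3⟩ := ih
      by_cases h : ∃ t ∈ T, (L : ℤ) - t ∈ insert 0 F
      · refine ⟨T, fun t ht => ⟨(h1 t ht).1, by have := (h1 t ht).2; push_cast; omega⟩, h2, ?_⟩
        intro x hx0 hx1
        rcases eq_or_ne x (L : ℤ) with rfl | hx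
        · exact h
        · exact h3 x hx0 (by push_cast at hx1; omega)
      · push Not at h
        refine ⟨insert (L : ℤ) T, ?_, ?_, ?_⟩
        · intro t ht
          rcases Finset.mem_insert.1 ht with rfl | ht
          · push_cast
            omega
          · have := h1 t ht
            push_cast
            omega
        · intro t ht u hu hut
          rcases Finset.mem_insert.1 ht with rfl | ht
          · rcases Finset.mem_insert.1 hu with rfl | hu
            · omega
            · intro hF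
              exact h u hu (Finset.mem_insert_of_mem hF)
          · rcases Finset.mem_insert.1 hu with rfl | hu
            · have := (h1 t ht).2
              omega
            · exact h2 t ht u hu hut
        · intro x hx0 hx1
          rcases eq_or_ne x (L : ℤ) with rfl | hx
          · exact ⟨_, Finset.mem_insert_self _ _, by simp⟩
          · obtain ⟨t, ht, ht2⟩ := h3 x hx0 (by push_cast at hx1; omega)
            exact ⟨t, Finset.mem_insert_of_mem ht, ht2⟩
  obtain ⟨T, h1, h2, h3⟩ := key L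
  refine ⟨T, h1, h2, ?_⟩
  have hsub : Finset.Ico (0 : ℤ) L ⊆ (T ×ˢ insert 0 F).image fun p => p.1 + p.2 := by
    intro x hx
    rw [Finset.mem_Ico] at hx
    obtain ⟨t, ht, ht2⟩ := h3 x hx.1 hx.2
    exact Finset.mem_image.2 ⟨(t, x - t), Finset.mem_product.2 ⟨ht, ht2⟩, by simp⟩
  calc L = (Finset.Ico (0 : ℤ) L).card := by simp
    _ ≤ _ := Finset.card_le_card hsub
    _ ≤ (T ×ˢ insert 0 F).card := Finset.card_image_le
    _ = T.card * (insert 0 F).card := Finset.card_product _ _
    _ ≤ T.card * (F.card + 1) := Nat.mul_le_mul_left _ (Finset.card_insert_le _ _)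

/-- `S + X - X` -/
def D (S X : Finset ℤ) : Finset ℤ := S + X - X

/-- the forbidden positive differences -/
def Fb (S X : Finset ℤ) : Finset ℤ := ((D S X ∪ -(D S X)) ∪ (X - X)).filter fun x => 0 < x

theorem card_D_pos {S X : Finset ℤ} (hS : S.Nonempty) (hX : X.Nonempty) : 1 ≤ (D S X).card :=
  Finset.card_pos.2 ((hS.add hX).sub hX)

theorem card_sub_le {S X : Finset ℤ} (hS : S.Nonempty) : (X - X).card ≤ (D S X).card := by
  obtain ⟨s, hs⟩ := hS
  have h : (X - X).image (fun x => s + x) ⊆ D S X := by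
    intro x hx
    obtain ⟨y, hy, rfl⟩ := Finset.mem_image.1 hx
    obtain ⟨a, ha, b, hb, rfl⟩ := Finset.mem_sub.1 hy
    exact Finset.mem_sub.2 ⟨s + a, Finset.add_mem_add hs ha, b, hb, by ring⟩
  have := Finset.card_le_card h
  rwa [Finset.card_image_of_injective _ (fun x y h => by simpa using h)] at this

theorem card_neg_filter (A : Finset ℤ) :
    ((-A).filter fun x => 0 < x).card = (A.filter fun x => x < 0).card := by
  have : (-A).filter (fun x => 0 < x) = (A.filter fun x => x < 0).image fun x => -x := by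
    ext x
    simp only [Finset.mem_filter, Finset.mem_neg, Finset.mem_image]
    constructor
    · rintro ⟨⟨y, hy, rfl⟩, h⟩
      exact ⟨y, ⟨hy, by omega⟩, rfl⟩
    · rintro ⟨y, ⟨hy, h⟩, rfl⟩
      exact ⟨⟨y, hy, rfl⟩, by omega⟩
  rw [this, Finset.card_image_of_injective _ neg_injective]

theorem card_pos_neg (A : Finset ℤ) :
    (A.filter fun x => 0 < x).card + (A.filter fun x => x < 0).card ≤ A.card := by
  rw [← Finset.card_union_of_disjoint]
  · exact Finset.card_le_card (Finset.union_subset (Finset.filter_subset _ _) (Finset.filter_subset _ _))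
  · rw [Finset.disjoint_left]
    intro x h1 h2
    have h3 := (Finset.mem_filter.1 h1).2
    have h4 := (Finset.mem_filter.1 h2).2
    omega

theorem card_Fb {S X : Finset ℤ} (hS : S.Nonempty) (hX : X.Nonempty) :
    2 * ((Fb S X).card + 1) ≤ 3 * (D S X).card + 1 := by
  have h1 : Fb S X = (((D S X).filter fun x => 0 < x) ∪ ((-(D S X)).filter fun x => 0 < x)) ∪
      ((X - X).filter fun x => 0 < x) := by
    unfold Fb
    rw [Finset.filter_union, Finset.filter_union]
  have h2 : (Fb S X).card ≤ ((D S X).filter fun x => 0 < x).card +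
      ((D S X).filter fun x => x < 0).card + ((X - X).filter fun x => 0 < x).card := by
    rw [h1, ← card_neg_filter]
    exact (Finset.card_union_le _ _).trans (Nat.add_le_add_right (Finset.card_union_le _ _) _)
  have h3 := card_pos_neg (D S X)
  have h4 : 2 * ((X - X).filter fun x => 0 < x).card + 1 ≤ (X - X).card := by
    have e1 : -(X - X) = X - X := by
      rw [neg_sub]
    have e2 := card_neg_filter (X - X)
    rw [e1] at e2
    obtain ⟨s, hs⟩ := hX
    have h0 : (0 : ℤ) ∈ X - X := Finset.mem_sub.2 ⟨s, hs, s, hs, sub_self s⟩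
    have h5 := card_pos_neg ((X - X).erase 0)
    have e3 : ((X - X).erase 0).filter (fun x => 0 < x) = (X - X).filter fun x => 0 < x := by
      ext x
      simp only [Finset.mem_filter, Finset.mem_erase]
      constructor
      · rintro ⟨⟨_, h⟩, h'⟩
        exact ⟨h, h'⟩
      · rintro ⟨h, h'⟩
        exact ⟨⟨by omega, h⟩, h'⟩
    have e4 : ((X - X).erase 0).filter (fun x => x < 0) = (X - X).filter fun x => x < 0 := by
      ext x
      simp only [Finset.mem_filter, Finset.mem_erase]
      constructor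
      · rintro ⟨⟨_, h⟩, h'⟩
        exact ⟨h, h'⟩
      · rintro ⟨h, h'⟩
        exact ⟨⟨by omega, h⟩, h'⟩
    rw [e3, e4] at h5
    have h6 := Finset.card_erase_add_one h0
    omega
  have h5 := card_sub_le (X := X) hS
  omega

/-- A dense set whose differences avoid `S`. -/
theorem pack {S X : Finset ℤ} (hS : S.Nonempty) (hX : X.Nonempty)
    (hf : ∀ x ∈ X, ∀ y ∈ X, x - y ∉ S) {M : ℕ}
    (hM : ∀ s ∈ X, -(M : ℤ) ≤ s ∧ s ≤ M) (L : ℕ) :
    ∃ B : Finset ℤ, (∀ b ∈ B, -(M : ℤ) ≤ b ∧ b < L + M) ∧ (∀ b ∈ B, ∀ c ∈ B, b - c ∉ S) ∧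
      2 * X.card * L ≤ (3 * (D S X).card + 1) * B.card := by
  classical
  obtain ⟨T, h1, h2, h3⟩ := greedy (Fb S X) L
  refine ⟨(X ×ˢ T).image fun p => p.1 + p.2, ?_, ?_, ?_⟩
  · intro b hb
    obtain ⟨⟨s, t⟩, hp, rfl⟩ := Finset.mem_image.1 hb
    obtain ⟨hs, ht⟩ := Finset.mem_product.1 hp
    have := hM s hs
    have := h1 t ht
    constructor
    · show -(M : ℤ) ≤ s + t
      simp only at *
      omega
    · show s + t < (L : ℤ) + M
      simp only at *
      omega
  · intro b hb c hc hbc
    obtain ⟨⟨s, t⟩, hp, rfl⟩ := Finset.mem_image.1 hb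
    obtain ⟨⟨s', t'⟩, hp', rfl⟩ := Finset.mem_image.1 hc
    obtain ⟨hs, ht⟩ := Finset.mem_product.1 hp
    obtain ⟨hs', ht'⟩ := Finset.mem_product.1 hp'
    simp only at hs ht hs' ht' hbc
    have hd : t - t' ∈ D S X :=
      Finset.mem_sub.2 ⟨_, Finset.add_mem_add hbc hs', s, hs, by ring⟩
    rcases lt_trichotomy t t' with h | h | h
    · refine h2 t' ht' t ht h (Finset.mem_filter.2 ⟨?_, by omega⟩)
      refine Finset.mem_union_left _ (Finset.mem_union_right _ (Finset.mem_neg.2 ⟨_, hd, by ring⟩))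
    · subst h
      refine hf s hs s' hs' ?_
      have e : s + t - (s' + t) = s - s' := by ring
      rwa [e] at hbc
    · exact h2 t ht t' ht' h (Finset.mem_filter.2 ⟨Finset.mem_union_left _ (Finset.mem_union_left _ hd),
        by omega⟩)
  · rw [Finset.card_image_of_injOn, Finset.card_product]
    · have h4 := card_Fb hS hX
      calc 2 * X.card * L ≤ 2 * X.card * (T.card * ((Fb S X).card + 1)) := Nat.mul_le_mul_left _ h3
        _ = (2 * ((Fb S X).card + 1)) * (X.card * T.card) := by ring
        _ ≤ (3 * (D S X).card + 1) * (X.card * T.card) := Nat.mul_le_mul_right _ h4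
    · rintro ⟨s, t⟩ hp ⟨s', t'⟩ hp' h
      obtain ⟨hs, ht⟩ := Finset.mem_product.1 (Finset.mem_coe.1 hp)
      obtain ⟨hs', ht'⟩ := Finset.mem_product.1 (Finset.mem_coe.1 hp')
      simp only at hs ht hs' ht' h
      have htt : t = t' := by
        rcases lt_trichotomy t t' with h' | h' | h'
        · exfalso
          refine h2 t' ht' t ht h' (Finset.mem_filter.2 ⟨Finset.mem_union_right _ ?_, by omega⟩)
          exact Finset.mem_sub.2 ⟨s, hs, s', hs', by omega⟩
        · exact h'
        · exfalso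
          refine h2 t ht t' ht' h' (Finset.mem_filter.2 ⟨Finset.mem_union_right _ ?_, by omega⟩)
          exact Finset.mem_sub.2 ⟨s', hs', s, hs, by omega⟩
      subst htt
      have : s = s' := by omega
      rw [this]

end Pool.Agent.Helper10.Sch
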